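import Pool.Agent.H27.L1.H31.GK.TG
import Pool.Agent.H27.L1.H74.GA.RRA

/-!
Row GHA of the board ghk: averages of the right translates (helper73), for an arbitrary set of
finite measure in `GL_m(R)`.
-/

set_option autoImplicit false

namespace Pool.Agent.H27.L1.H73.GK

open MeasureTheory Set Filter Topology
open Pool.Agent.H27.L1.H34.GM Pool.Agent.H27.L1.H34.GZ Pool.Agent.H27.L1.H34.GU Pool.Agent.H27.L1.H34.GA Pool.Agent.H27.L1.H68.GHY
open Pool.Agent.H27.L1.H74.GA Pool.Agent.H27.L1.H31.GK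

theorem sfin (m : ℕ) : SFinite (hm m) := by
  unfold hm
  infer_instance

/-- the average of the right translates with the weight `c` -/
noncomputable def av {m N : ℕ} (S : Set (V m)) (c : V m → ℂ) (F : Mat m → VN m N → ℂ) (g : Mat m)
    (x : VN m N) : ℂ :=
  ∫ z in S, c z * F (g * mt z) x ∂(hm m)

theorem det_mul_nz {m : ℕ} {g z : Mat m} (hg : g.det ≠ 0) (hz : z.det ≠ 0) : (g * z).det ≠ 0 := by
  rw [Matrix.det_mul]
  exact mul_ne_zero hg hz

theorem cont_mulr {m : ℕ} (g : Mat m) : Continuous (fun z : V m => g * mt z) := by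
  have h4 : Continuous (fun w : Mat m => g * w) := by fun_prop
  exact h4.comp th1_cmt

theorem av_meas {m N : ℕ} {S : Set (V m)} (hSm : MeasurableSet S)
    (hSd : ∀ z ∈ S, (mt z).det ≠ 0) {c : V m → ℂ} (hc : Measurable c)
    {F : Mat m → VN m N → ℂ} {x : VN m N} (hF : ContinuousOn (fun g => F g x) {g | g.det ≠ 0})
    {g : Mat m} (hg : g.det ≠ 0) :
    AEStronglyMeasurable (fun z : V m => c z * F (g * mt z) x) ((hm m).restrict S) := by
  refine hc.aestronglyMeasurable.mul ?_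
  have h1 : ContinuousOn (fun z : V m => F (g * mt z) x) S := by
    refine ContinuousOn.comp (g := fun w : Mat m => F w x) (t := {g | g.det ≠ 0}) hF
      (cont_mulr g).continuousOn ?_
    intro z hz
    exact det_mul_nz hg (hSd z hz)
  exact h1.aestronglyMeasurable hSm

theorem av_le {m N : ℕ} {S : Set (V m)} (hSm : MeasurableSet S)
    (hSd : ∀ z ∈ S, (mt z).det ≠ 0) {c : V m → ℂ} {M : ℝ} (hM : ∀ z, ‖c z‖ ≤ M)
    {F : Mat m → VN m N → ℂ} {B : ℝ} {x : VN m N}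
    (hB : ∀ g : Mat m, g.det ≠ 0 → ‖F g x‖ ≤ B) {g : Mat m} (hg : g.det ≠ 0) :
    ∀ᵐ z ∂((hm m).restrict S), ‖c z * F (g * mt z) x‖ ≤ M * B := by
  refine (ae_restrict_iff' hSm).2 (Filter.Eventually.of_forall fun z hzS => ?_)
  rw [norm_mul]
  have hM0 : 0 ≤ M := (norm_nonneg _).trans (hM z)
  exact mul_le_mul (hM _) (hB _ (det_mul_nz hg (hSd z hzS))) (norm_nonneg _) hM0

theorem av_int {m N : ℕ} {S : Set (V m)} (hSm : MeasurableSet S)
    (hSd : ∀ z ∈ S, (mt z).det ≠ 0) (hSf : hm m S < ⊤) {c : V m → ℂ} (hc : Measurable c)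
    {M : ℝ} (hM : ∀ z, ‖c z‖ ≤ M) {F : Mat m → VN m N → ℂ} {x : VN m N}
    (hF : ContinuousOn (fun g => F g x) {g | g.det ≠ 0}) {B : ℝ}
    (hB : ∀ g : Mat m, g.det ≠ 0 → ‖F g x‖ ≤ B) {g : Mat m} (hg : g.det ≠ 0) :
    IntegrableOn (fun z : V m => c z * F (g * mt z) x) S (hm m) :=
  Integrable.mono' (integrableOn_const hSf.ne) (av_meas hSm hSd hc hF hg)
    (av_le hSm hSd hM hB hg)

/-- the average is a Hecke eigenfunction -/
theorem av_hec {m N : ℕ} [NeZero N] {T : ℕ → Finset (ZM m)} {D : Set (V m)}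
    (hS : SysZ m N T D) {F : Mat m → VN m N → ℂ} {lam : ℕ → ℂ} (hF : HecA m N T F lam)
    {S : Set (V m)} (hSm : MeasurableSet S) (hSd : ∀ z ∈ S, (mt z).det ≠ 0) (hSf : hm m S < ⊤)
    {c : V m → ℂ} (hc : Measurable c) {M : ℝ} (hM : ∀ z, ‖c z‖ ≤ M) :
    HecA m N T (av S c F) lam := by
  obtain ⟨B, hB⟩ := hF.bdd
  have hBx : ∀ x, ∀ g : Mat m, g.det ≠ 0 → ‖F g x‖ ≤ max B 0 :=
    fun x g hg => (hB g x hg).trans (le_max_left _ _)
  constructor
  · intro x
    show ContinuousOn (fun g => ∫ z in S, c z * F (g * mt z) x ∂(hm m)) {g | g.det ≠ 0}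
    have : FirstCountableTopology (Mat m) := inferInstanceAs (FirstCountableTopology (V m))
    refine continuousOn_of_dominated (bound := fun _ => M * max B 0)
      (fun g hg => av_meas hSm hSd hc (hF.cont x) hg)
      (fun g hg => av_le hSm hSd hM (hBx x) hg) (integrableOn_const hSf.ne) ?_
    refine (ae_restrict_iff' hSm).2 (Filter.Eventually.of_forall fun z hz => ?_)
    refine continuousOn_const.mul ?_
    refine ContinuousOn.comp (g := fun w : Mat m => F w x) (t := {g | g.det ≠ 0}) (hF.cont x)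
      (Continuous.continuousOn (by fun_prop)) ?_
    intro g hg
    exact det_mul_nz hg (hSd z hz)
  · intro g x hx
    show ∫ z in S, c z * F (g * mt z) x ∂(hm m) = 0
    simp only [hF.supp _ x hx, mul_zero, integral_zero]
  · intro γ hγ g x hg
    show ∫ z in S, c z * F (cR γ * g * mt z) (ac N γ x) ∂(hm m) =
      ∫ z in S, c z * F (g * mt z) x ∂(hm m)
    refine setIntegral_congr_fun hSm fun z hz => ?_
    show c z * F (cR γ * g * mt z) (ac N γ x) = c z * F (g * mt z) x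
    rw [Matrix.mul_assoc, hF.auto γ hγ _ x (det_mul_nz hg (hSd z hz))]
  · intro r hr g x hg
    show ∫ z in S, c z * F (r • g * mt z) x ∂(hm m) = ∫ z in S, c z * F (g * mt z) x ∂(hm m)
    refine setIntegral_congr_fun hSm fun z hz => ?_
    show c z * F (r • g * mt z) x = c z * F (g * mt z) x
    rw [Matrix.smul_mul, hF.scal r hr _ x (det_mul_nz hg (hSd z hz))]
  · intro n hn g x hg
    show ∑ α ∈ T n, ∫ z in S, c z * F (cR α * g * mt z) (ac N α x) ∂(hm m) =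
      (n : ℂ) ^ (((m : ℂ) - 1) / 2) * lam n * ∫ z in S, c z * F (g * mt z) x ∂(hm m)
    have hα : ∀ α ∈ T n, (cR α * g).det ≠ 0 := by
      intro α hα
      have h1 := hS.reps.mem n hn α hα
      rw [Matrix.det_mul, cR_det]
      refine mul_ne_zero ?_ hg
      have h2 : α.det ≠ 0 := by
        intro h0
        rw [h0] at h1
        simp at h1
        omega
      exact_mod_cast h2
    rw [← integral_finsetSum _ (fun α hα' => av_int hSm hSd hSf hc hM (hF.cont _)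
      (hBx _) (hα α hα')), ← integral_const_mul]
    refine setIntegral_congr_fun hSm fun z hz => ?_
    show ∑ α ∈ T n, c z * F (cR α * g * mt z) (ac N α x) =
      (n : ℂ) ^ (((m : ℂ) - 1) / 2) * lam n * (c z * F (g * mt z) x)
    have h1 := hF.hecke n hn _ x (det_mul_nz hg (hSd z hz))
    rw [← Finset.mul_sum]
    have h2 : ∑ α ∈ T n, F (cR α * g * mt z) (ac N α x) =
        ∑ α ∈ T n, F (cR α * (g * mt z)) (ac N α x) :=
      Finset.sum_congr rfl (fun α _ => by rw [Matrix.mul_assoc])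
    rw [h2, h1]
    ring
  · refine ⟨∫ z in S, (M * max B 0) ∂(hm m), fun g x hg => ?_⟩
    exact norm_integral_le_of_norm_le (integrableOn_const hSf.ne)
      (av_le hSm hSd hM (hBx x) hg)

/-- the integrand of the double integral is measurable -/
theorem av_pmeas (hMS : T_MSR) {m N : ℕ} (hm1 : 1 ≤ m) {S : Set (V m)} (hSm : MeasurableSet S)
    (hSd : ∀ z ∈ S, (mt z).det ≠ 0) {c : V m → ℂ} (hc : Measurable c) {k : Mat m → ℂ}
    (hk : Tg m k) {F : Mat m → VN m N → ℂ} {x : VN m N}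
    (hF : ContinuousOn (fun g => F g x) {g | g.det ≠ 0}) {g : Mat m} (hg : g.det ≠ 0) :
    AEStronglyMeasurable (fun p : V m × V m => k (((1 : ℝ)⁻¹ * (aN (mt p.1))⁻¹) • mt p.1) *
      (c p.2 * F (g * (mt p.1)⁻¹ * mt p.2) x))
      (((hm m).restrict (Shell m)).prod ((hm m).restrict S)) := by
  have hsf : SFinite (hm m) := sfin m
  obtain ⟨-, -, -, -, -, hSh, -, -⟩ := hMS.1 m
  refine AEStronglyMeasurable.mul ?_ (AEStronglyMeasurable.mul ?_ ?_)
  · exact ((th1_meas hMS hk.cont (1 : ℝ)⁻¹).comp measurable_fst).aestronglyMeasurable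
  · exact (hc.comp measurable_snd).aestronglyMeasurable
  · rw [Measure.prod_restrict]
    have h1 : ContinuousOn (fun p : V m × V m => F (g * (mt p.1)⁻¹ * mt p.2) x)
        (Shell m ×ˢ S) := by
      refine ContinuousOn.comp (g := fun w : Mat m => F w x) (t := {g | g.det ≠ 0}) hF ?_ ?_
      · refine ContinuousOn.mul ?_ (th1_cmt.comp continuous_snd).continuousOn
        refine ContinuousOn.comp (g := fun z : V m => g * (mt z)⁻¹)
          (t := {z : V m | (mt z).det ≠ 0}) (cont_inv m g) continuous_fst.continuousOn ?_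
        intro p hp
        exact th1_det_ne hm1 hp.1
      · intro p hp
        exact det_mul_nz (det_nz hg (th1_det_ne hm1 hp.1)) (hSd _ hp.2)
    exact h1.aestronglyMeasurable (hSh.prod hSm)

/-- the double integral converges -/
theorem av_pint (hMS : T_MSR) (hH : T_HAR) {m N : ℕ} (hm1 : 1 ≤ m) {S : Set (V m)}
    (hSm : MeasurableSet S) (hSd : ∀ z ∈ S, (mt z).det ≠ 0) (hSf : hm m S < ⊤) {c : V m → ℂ}
    (hc : Measurable c) {M : ℝ} (hM : ∀ z, ‖c z‖ ≤ M) {k : Mat m → ℂ} (hk : Tg m k)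
    {F : Mat m → VN m N → ℂ} {x : VN m N}
    (hF : ContinuousOn (fun g => F g x) {g | g.det ≠ 0}) {B : ℝ} (hB0 : 0 ≤ B)
    (hB : ∀ g : Mat m, g.det ≠ 0 → ‖F g x‖ ≤ B) {g : Mat m} (hg : g.det ≠ 0) :
    Integrable (fun p : V m × V m => k (((1 : ℝ)⁻¹ * (aN (mt p.1))⁻¹) • mt p.1) *
      (c p.2 * F (g * (mt p.1)⁻¹ * mt p.2) x))
      (((hm m).restrict (Shell m)).prod ((hm m).restrict S)) := by
  have hsf : SFinite (hm m) := sfin m
  obtain ⟨-, -, -, -, -, hSh, -, -⟩ := hMS.1 m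
  obtain ⟨K, hK0, hKb⟩ := tg_bd hk
  obtain ⟨d, hd, hs⟩ := tg_sup hm1 hk (one_pos : (0 : ℝ) < 1)
  have hfS : IsFiniteMeasure ((hm m).restrict S) := ⟨by rw [Measure.restrict_apply_univ]; exact hSf⟩
  have hmaj : Integrable (fun p : V m × V m =>
      (th1K m d).indicator (fun _ => K * (M * B)) p.1 * (1 : ℝ))
      (((hm m).restrict (Shell m)).prod ((hm m).restrict S)) :=
    (rr_maj hH hm1 hd (K * (M * B))).mul_prod (integrable_const (1 : ℝ))
  refine hmaj.mono' (av_pmeas hMS hm1 hSm hSd hc hk hF hg) ?_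
  rw [Measure.prod_restrict]
  refine (ae_restrict_iff' (hSh.prod hSm)).2 (Filter.Eventually.of_forall fun p hp => ?_)
  have hM0 : 0 ≤ M := (norm_nonneg _).trans (hM p.2)
  rw [mul_one]
  by_cases h1 : k (((1 : ℝ)⁻¹ * (aN (mt p.1))⁻¹) • mt p.1) = 0
  · rw [h1, zero_mul, norm_zero]
    exact Set.indicator_nonneg (fun _ _ => mul_nonneg hK0 (mul_nonneg hM0 hB0)) _
  · rw [Set.indicator_of_mem (hs p.1 hp.1 h1), norm_mul, norm_mul]
    refine mul_le_mul (hKb _) ?_ (by positivity) hK0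
    exact mul_le_mul (hM _) (hB _ (det_mul_nz (det_nz hg (th1_det_ne hm1 hp.1)) (hSd _ hp.2)))
      (norm_nonneg _) hM0

/-- convolution and average commute -/
theorem av_rr (hMS : T_MSR) (hH : T_HAR) {m N : ℕ} [NeZero N] {T : ℕ → Finset (ZM m)}
    {D : Set (V m)} (hS : SysZ m N T D) {F : Mat m → VN m N → ℂ} {lam : ℕ → ℂ}
    (hF : HecA m N T F lam) {S : Set (V m)} (hSm : MeasurableSet S)
    (hSd : ∀ z ∈ S, (mt z).det ≠ 0) (hSf : hm m S < ⊤) {c : V m → ℂ} (hc : Measurable c) {M : ℝ}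
    (hM : ∀ z, ‖c z‖ ≤ M) {Φ : Mat m → ℂ} (hΦ : Tg m Φ) {g : Mat m} (x : VN m N)
    (hg : g.det ≠ 0) :
    Rr Φ 1 (av S c F) g x = ∫ z in S, c z * Rr Φ 1 (trn (mt z) F) g x ∂(hm m) := by
  have hsf : SFinite (hm m) := sfin m
  obtain ⟨B, hB⟩ := hF.bdd
  have hB0 : (0 : ℝ) ≤ max B 0 := le_max_right _ _
  have hI := av_pint hMS hH hS.one_le hSm hSd hSf hc hM hΦ (hF.cont x) hB0
    (fun g hg => (hB g x hg).trans (le_max_left _ _)) hg
  have hsw := integral_integral_swap (f := fun (w z : V m) =>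
    Φ (((1 : ℝ)⁻¹ * (aN (mt w))⁻¹) • mt w) * (c z * F (g * (mt w)⁻¹ * mt z) x)) hI
  have e1 : Rr Φ 1 (av S c F) g x = ∫ w in Shell m, ∫ z in S,
      Φ (((1 : ℝ)⁻¹ * (aN (mt w))⁻¹) • mt w) * (c z * F (g * (mt w)⁻¹ * mt z) x)
        ∂(hm m) ∂(hm m) := by
    show ∫ w in Shell m, Φ (((1 : ℝ)⁻¹ * (aN (mt w))⁻¹) • mt w) *
      (∫ z in S, c z * F (g * (mt w)⁻¹ * mt z) x ∂(hm m)) ∂(hm m) = _
    refine integral_congr_ae (Filter.Eventually.of_forall fun w => ?_)
    exact (integral_const_mul _ _).symm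
  have e2 : ∫ z in S, c z * Rr Φ 1 (trn (mt z) F) g x ∂(hm m) = ∫ z in S, ∫ w in Shell m,
      Φ (((1 : ℝ)⁻¹ * (aN (mt w))⁻¹) • mt w) * (c z * F (g * (mt w)⁻¹ * mt z) x)
        ∂(hm m) ∂(hm m) := by
    refine integral_congr_ae (Filter.Eventually.of_forall fun z => ?_)
    show c z * ∫ w in Shell m, Φ (((1 : ℝ)⁻¹ * (aN (mt w))⁻¹) • mt w) *
      F (g * (mt w)⁻¹ * mt z) x ∂(hm m) = _
    rw [← integral_const_mul]
    refine integral_congr_ae (Filter.Eventually.of_forall fun w => ?_)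
    show c z * (Φ (((1 : ℝ)⁻¹ * (aN (mt w))⁻¹) • mt w) * F (g * (mt w)⁻¹ * mt z) x) =
      Φ (((1 : ℝ)⁻¹ * (aN (mt w))⁻¹) • mt w) * (c z * F (g * (mt w)⁻¹ * mt z) x)
    ring
  rw [e1, e2]
  exact hsw

/-- GHA for every set of finite measure -/
theorem gha_set (hMS : T_MSR) (hH : T_HAR) (m N : ℕ) [NeZero N] (T : ℕ → Finset (ZM m))
    (D : Set (V m)) (hS : SysZ m N T D) (F : Mat m → VN m N → ℂ) (lam : ℕ → ℂ)
    (hF : HecA m N T F lam) (S : Set (V m)) (hSm : MeasurableSet S)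
    (hSd : ∀ z ∈ S, (mt z).det ≠ 0) (hSf : hm m S < ⊤) (c : V m → ℂ) (M : ℝ) (hc : Measurable c)
    (hM : ∀ z, ‖c z‖ ≤ M) :
    HecA m N T (fun g x => ∫ z in S, c z * F (g * mt z) x ∂(hm m)) lam ∧
    ∀ Φ : Mat m → ℂ, Tg m Φ → ∀ (g : Mat m) (x : VN m N), g.det ≠ 0 →
      Rr Φ 1 (fun g x => ∫ z in S, c z * F (g * mt z) x ∂(hm m)) g x =
        ∫ z in S, c z * Rr Φ 1 (trn (mt z) F) g x ∂(hm m) :=
  ⟨av_hec hS hF hSm hSd hSf hc hM,
    fun _ hΦ _ x hg => av_rr hMS hH hS hF hSm hSd hSf hc hM hΦ x hg⟩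

theorem pf_GHA (hMS : T_MSR) (hH : T_HAR) (hB : T_BLF) : T_GHA := by
  intro m N _ T D hS F lam hF c M hc hM
  obtain ⟨b1, b2, b3, -, -⟩ := hB m hS.one_le
  have hm1 : (1 : ℝ) ≤ m := by exact_mod_cast hS.one_le
  have hr : r0 m ≤ r1 m := by
    unfold r0 r1
    apply one_div_le_one_div_of_le (by positivity)
    nlinarith
  have hsub : Bl m (r0 m) ⊆ Bl m (r1 m) := fun z hz => le_trans hz hr
  exact gha_set hMS hH m N T D hS F lam hF (Bl m (r0 m)) (b1 _) (fun z hz => b2 z (hsub hz))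
    (lt_of_le_of_lt (measure_mono hsub) b3) c M hc hM

end Pool.Agent.H27.L1.H73.GK
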